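import Mathlib
import Pool.Agent.W169.HF.DefsB

/-!
# HF-INV: inverse heat flow along shifted vertical lines
-/

set_option autoImplicit false

open Complex MeasureTheory Filter Topology Set
open scoped ComplexConjugate

namespace Pool.Agent.W565.HF

open Pool.Agent.W169.HF

theorem integrable_line (k : ℂ → ℂ) (hk : Differentiable ℂ k) (c β C : ℝ) (hc : 0 < c)
    (hb : ∀ w : ℂ, |w.im| ≤ β → ‖k w‖ ≤ C * Real.exp (-c * w.re ^ 2)) (b : ℝ) (hbβ : |b| ≤ β) :
    Integrable (fun x : ℝ => k (x + b * I)) := by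
  refine Integrable.mono' ((integrable_exp_neg_mul_sq hc).const_mul C) ?_ ?_
  · exact (hk.continuous.comp (by fun_prop)).aestronglyMeasurable
  · refine Eventually.of_forall fun x => ?_
    have := hb (x + b * I) (by simpa using hbβ)
    simpa using this

/-- shift of the line of integration -/
theorem shift_line (k : ℂ → ℂ) (hk : Differentiable ℂ k) (c β C : ℝ) (hc : 0 < c)
    (hb : ∀ w : ℂ, |w.im| ≤ β → ‖k w‖ ≤ C * Real.exp (-c * w.re ^ 2)) (b : ℝ) (hbβ : |b| ≤ β) :
    ∫ x : ℝ, k (x + b * I) = ∫ x : ℝ, k x := by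
  have hβ : 0 ≤ β := (abs_nonneg b).trans hbβ
  have hC : 0 ≤ C := by
    have := hb 0 (by simpa using hβ)
    simp at this
    exact (norm_nonneg _).trans this
  have i1 := integrable_line k hk c β C hc hb b hbβ
  have i0 : Integrable (fun x : ℝ => k x) := by
    have := integrable_line k hk c β C hc hb 0 (by simpa using hβ)
    simpa using this
  have t1 : Tendsto (fun R : ℝ => ∫ x in (-R)..R, k (x + b * I)) atTop
      (𝓝 (∫ x : ℝ, k (x + b * I))) :=
    intervalIntegral_tendsto_integral i1 tendsto_neg_atTop_atBot tendsto_id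
  have t0 : Tendsto (fun R : ℝ => ∫ x in (-R)..R, k x) atTop (𝓝 (∫ x : ℝ, k x)) :=
    intervalIntegral_tendsto_integral i0 tendsto_neg_atTop_atBot tendsto_id
  have hd : ∀ R : ℝ, ‖(∫ x in (-R)..R, k (x + b * I)) - ∫ x in (-R)..R, k x‖ ≤
      2 * (C * Real.exp (-c * R ^ 2) * |b|) := by
    intro R
    have h := integral_boundary_rect_eq_zero_of_differentiableOn k ((-R : ℝ) : ℂ) (R + b * I)
      hk.differentiableOn
    simp only [ofReal_re, ofReal_im, add_re, mul_re, I_re, mul_zero, I_im, mul_one, sub_self,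
      add_zero, add_im, mul_im, zero_add, ofReal_zero, zero_mul] at h
    have v1 : ‖∫ y : ℝ in (0 : ℝ)..b, k (R + y * I)‖ ≤ C * Real.exp (-c * R ^ 2) * |b - 0| := by
      apply intervalIntegral.norm_integral_le_of_norm_le_const
      intro y hy
      have hy' : |y| ≤ |b| := by
        rw [uIoc_eq_union] at hy
        rcases hy with hy | hy
        · rw [abs_of_pos hy.1]
          exact hy.2.trans (le_abs_self b)
        · rw [abs_of_nonpos hy.2]
          have := hy.1
          linarith [neg_abs_le b]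
      have := hb (R + y * I) (by simpa using hy'.trans hbβ)
      simpa using this
    have v2 : ‖∫ y : ℝ in (0 : ℝ)..b, k (((-R : ℝ) : ℂ) + y * I)‖ ≤
        C * Real.exp (-c * R ^ 2) * |b - 0| := by
      apply intervalIntegral.norm_integral_le_of_norm_le_const
      intro y hy
      have hy' : |y| ≤ |b| := by
        rw [uIoc_eq_union] at hy
        rcases hy with hy | hy
        · rw [abs_of_pos hy.1]
          exact hy.2.trans (le_abs_self b)
        · rw [abs_of_nonpos hy.2]
          have := hy.1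
          linarith [neg_abs_le b]
      have := hb (((-R : ℝ) : ℂ) + y * I) (by simpa using hy'.trans hbβ)
      simpa using this
    rw [sub_zero] at v1 v2
    have e : (∫ x in (-R)..R, k (x + b * I)) - ∫ x in (-R)..R, k x =
        I • (∫ y : ℝ in (0 : ℝ)..b, k (R + y * I)) -
          I • ∫ y : ℝ in (0 : ℝ)..b, k (((-R : ℝ) : ℂ) + y * I) := by
      linear_combination -h
    rw [e]
    refine (norm_sub_le _ _).trans ?_
    rw [norm_smul, norm_smul, norm_I, one_mul, one_mul]
    linarith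
  have hz : Tendsto (fun R : ℝ => 2 * (C * Real.exp (-c * R ^ 2) * |b|)) atTop (𝓝 0) := by
    have h1 : Tendsto (fun R : ℝ => Real.exp (-c * R ^ 2)) atTop (𝓝 0) := by
      have h2 : Tendsto (fun R : ℝ => c * R ^ 2) atTop atTop :=
        (tendsto_pow_atTop two_ne_zero).const_mul_atTop hc
      have := Real.tendsto_exp_neg_atTop_nhds_zero.comp h2
      refine this.congr fun R => ?_
      simp
    have := ((h1.const_mul C).mul_const |b|).const_mul 2
    simpa using this
  have hd0 : Tendsto (fun R : ℝ => (∫ x in (-R)..R, k (x + b * I)) - ∫ x in (-R)..R, k x) atTop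
      (𝓝 0) := squeeze_zero_norm hd hz
  have := tendsto_nhds_unique hd0 (t1.sub t0)
  exact (sub_eq_zero.1 this.symm)

theorem inv (hHS : S_HS) (hSG : S_SG) (hHEAT : S_HEAT) : S_INV := by
  intro f hf t ht z w0
  have hF : heat t f = hs t f := hHEAT f hf t ht.le
  have hFs : Slow (hs t f) := (hHS f hf t).2.1
  rw [hF]
  set F := hs t f with hFdef
  obtain ⟨K, hK, hKb⟩ := hFs.2 (1 / (16 * t)) (by positivity)
  set k : ℂ → ℂ := fun w => cexp (-(w ^ 2 / (4 * t))) * F (z + I * w) with hk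
  have hkd : Differentiable ℂ k := by
    have := hFs.1
    fun_prop
  have hbound : ∀ β : ℝ, 0 ≤ β → ∃ C : ℝ, ∀ w : ℂ, |w.im| ≤ β →
      ‖k w‖ ≤ C * Real.exp (-(1 / (8 * t)) * w.re ^ 2) := by
    intro β hβ
    refine ⟨K * Real.exp (β ^ 2 / (4 * t) + (‖z‖ ^ 2 + β ^ 2) / (8 * t)), fun w hw => ?_⟩
    have h1 : ‖cexp (-(w ^ 2 / (4 * t)))‖ = Real.exp (-((w.re ^ 2 - w.im ^ 2) / (4 * t))) := by
      rw [norm_exp]
      congr 1
      have : w ^ 2 / (4 * (t : ℂ)) = ((1 / (4 * t) : ℝ) : ℂ) * w ^ 2 := by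
        push_cast
        ring
      rw [this, neg_re, re_ofReal_mul, sq w, mul_re]
      ring
    have h2 := hKb (z + I * w)
    have h3 : ‖z + I * w‖ ^ 2 ≤ 2 * ‖z‖ ^ 2 + 2 * (w.re ^ 2 + w.im ^ 2) := by
      have h4 : ‖z + I * w‖ ≤ ‖z‖ + ‖w‖ := by
        refine (norm_add_le _ _).trans ?_
        rw [norm_mul, norm_I, one_mul]
      have h5 : ‖w‖ ^ 2 = w.re ^ 2 + w.im ^ 2 := by
        rw [← normSq_eq_norm_sq, normSq_apply]
        ring
      rw [← h5]
      have h6 : ‖z + I * w‖ ^ 2 ≤ (‖z‖ + ‖w‖) ^ 2 := pow_le_pow_left₀ (norm_nonneg _) h4 2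
      nlinarith [sq_nonneg (‖z‖ - ‖w‖)]
    have h7 : w.im ^ 2 ≤ β ^ 2 := by
      rw [← sq_abs w.im]
      exact pow_le_pow_left₀ (abs_nonneg _) hw 2
    rw [hk]
    simp only
    rw [norm_mul, h1]
    calc Real.exp (-((w.re ^ 2 - w.im ^ 2) / (4 * t))) * ‖F (z + I * w)‖
        ≤ Real.exp (-((w.re ^ 2 - w.im ^ 2) / (4 * t))) *
            (K * Real.exp (1 / (16 * t) * ‖z + I * w‖ ^ 2)) :=
          mul_le_mul_of_nonneg_left h2 (Real.exp_pos _).le
      _ = K * Real.exp (-((w.re ^ 2 - w.im ^ 2) / (4 * t)) + 1 / (16 * t) * ‖z + I * w‖ ^ 2) := by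
          rw [Real.exp_add]
          ring
      _ ≤ K * Real.exp (β ^ 2 / (4 * t) + (‖z‖ ^ 2 + β ^ 2) / (8 * t) +
            -(1 / (8 * t)) * w.re ^ 2) := by
          apply mul_le_mul_of_nonneg_left _ hK.le
          apply Real.exp_le_exp.2
          have e1 : 1 / (16 * t) * ‖z + I * w‖ ^ 2 ≤
              1 / (16 * t) * (2 * ‖z‖ ^ 2 + 2 * (w.re ^ 2 + w.im ^ 2)) :=
            mul_le_mul_of_nonneg_left h3 (by positivity)
          have e2 : -((w.re ^ 2 - w.im ^ 2) / (4 * t)) +
              1 / (16 * t) * (2 * ‖z‖ ^ 2 + 2 * (w.re ^ 2 + w.im ^ 2)) =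
              (w.im ^ 2 / (4 * t) + (‖z‖ ^ 2 + w.im ^ 2) / (8 * t)) - (1 / (8 * t)) * w.re ^ 2 := by
            field_simp
            ring
          have e3 : w.im ^ 2 / (4 * t) ≤ β ^ 2 / (4 * t) :=
            div_le_div_of_nonneg_right h7 (by positivity)
          have e4 : (‖z‖ ^ 2 + w.im ^ 2) / (8 * t) ≤ (‖z‖ ^ 2 + β ^ 2) / (8 * t) :=
            div_le_div_of_nonneg_right (by linarith) (by positivity)
          linarith
      _ = _ := by
          rw [Real.exp_add]
          ring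
  obtain ⟨C, hC⟩ := hbound |w0.im| (abs_nonneg _)
  have hc8 : 0 < 1 / (8 * t) := by positivity
  have hint := integrable_line k hkd (1 / (8 * t)) |w0.im| C hc8 hC w0.im le_rfl
  have hsh := shift_line k hkd (1 / (8 * t)) |w0.im| C hc8 hC w0.im le_rfl
  have hfun : (fun y : ℝ => cexp (-((w0 + y) ^ 2 / (4 * t))) * F (z + I * (w0 + y))) =
      fun y : ℝ => (fun x : ℝ => k (x + w0.im * I)) (y + w0.re) := by
    funext y
    have e : ((y + w0.re : ℝ) : ℂ) + w0.im * I = w0 + y := by
      conv_rhs => rw [← re_add_im w0]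
      push_cast
      ring
    simp only [hk]
    rw [e]
  rw [hfun]
  refine ⟨hint.comp_add_right w0.re, ?_⟩
  rw [integral_add_right_eq_self (fun x : ℝ => k (x + w0.im * I)) w0.re, hsh]
  -- the integral over the real line
  have hpi : 0 < Real.sqrt Real.pi := Real.sqrt_pos.2 Real.pi_pos
  have hst : 0 < Real.sqrt t := Real.sqrt_pos.2 ht
  set G : ℂ → ℂ := fun w => F (I * w) with hG
  have hGs : Slow G := by
    refine ⟨hFs.1.comp (by fun_prop), fun δ hδ => ?_⟩
    obtain ⟨K', hK', hKb'⟩ := hFs.2 δ hδ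
    refine ⟨K', hK', fun w => ?_⟩
    have := hKb' (I * w)
    rw [norm_mul, norm_I, one_mul] at this
    exact this
  have e1 : ∫ x : ℝ, k x = ((2 * Real.sqrt t : ℝ) : ℂ) * ∫ v : ℝ, k ((2 * Real.sqrt t * v : ℝ)) := by
    have := Measure.integral_comp_mul_left (fun x : ℝ => k x) (2 * Real.sqrt t)
    rw [this, abs_of_pos (by positivity), ← Complex.real_smul, smul_smul,
      mul_inv_cancel₀ (by positivity), one_smul]
  have e2 : ∀ v : ℝ, k ((2 * Real.sqrt t * v : ℝ)) = ((Real.exp (-v ^ 2) : ℝ) : ℂ) *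
      G (-I * z + ((2 * Real.sqrt t * v : ℝ) : ℂ)) := by
    intro v
    simp only [hk, hG]
    have e3 : -((((2 * Real.sqrt t * v : ℝ) : ℂ)) ^ 2 / (4 * t)) = ((-v ^ 2 : ℝ) : ℂ) := by
      rw [← ofReal_pow, mul_pow, mul_pow, Real.sq_sqrt ht.le]
      push_cast
      have : (t : ℂ) ≠ 0 := by exact_mod_cast ht.ne'
      field_simp
      ring
    have e4 : I * (-I * z + ((2 * Real.sqrt t * v : ℝ) : ℂ)) =
        z + I * ((2 * Real.sqrt t * v : ℝ) : ℂ) := by
      rw [mul_add, ← mul_assoc, mul_neg, I_mul_I]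
      ring
    rw [e3, e4, ofReal_exp]
  have e5 : ∫ v : ℝ, k ((2 * Real.sqrt t * v : ℝ)) =
      ((Real.sqrt Real.pi : ℝ) : ℂ) * heat t G (-I * z) := by
    simp only [e2]
    unfold heat
    rw [← mul_assoc, ← ofReal_mul, mul_one_div_cancel hpi.ne', ofReal_one, one_mul]
  have e6 : heat t G (-I * z) = f z := by
    rw [hHEAT G hGs t ht.le]
    have e7 : hs t G (-I * z) = hs (-t) F z := by
      unfold hs
      refine tsum_congr fun n => ?_
      have e8 : iteratedDeriv (2 * n) G (-I * z) = (-1) ^ n * iteratedDeriv (2 * n) F z := by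
        have hcd : ContDiff ℂ (2 * n : ℕ) F := hFs.1.contDiff
        have := congrFun (iteratedDeriv_comp_const_mul hcd I) (-I * z)
        rw [hG]
        rw [this, pow_mul, I_sq]
        congr 2
        rw [← mul_assoc, mul_neg, I_mul_I]
        ring
      rw [e8, ← mul_assoc]
      congr 1
      push_cast
      rw [neg_pow (t : ℂ) n]
      ring
    rw [e7, hFdef, hSG f hf (-t) t]
    unfold hs
    rw [tsum_eq_single 0]
    · simp
    · intro n hn
      simp [hn]
  rw [e1, e5, e6, ← mul_assoc, ← ofReal_mul]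
  congr 2
  rw [show 4 * Real.pi * t = (2 : ℝ) ^ 2 * t * Real.pi by ring, Real.sqrt_mul (by positivity),
    Real.sqrt_mul (by positivity), Real.sqrt_sq (by norm_num)]

end Pool.Agent.W565.HF
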